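import Pool.Agent.Results.MP_39d40e_nt.PolynomialTrajectories

/-!
# The integers whose polynomial value does not follow the law of Leigh's chain, at their own scale
-/

set_option autoImplicit false

namespace Pool.Agent.J6H80.NP

open Polynomial Pool.Agent.H319R2.Leigh
open Pool.Agent.Results.MP_39d40e_nt.PolynomialTrajectories (Follows lam_pos)

/-- For `d ^ j ≤ |x|` the term `T^j (P x)` of the trajectory of `P x` has absolute value `L ^ j |P x|`, up to a factor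
between `|x| ^ (-ε)` and `|x| ^ ε`. -/
def Fol (d : ℕ) (m r : ℤ → ℤ) (L ε : ℝ) (P : ℤ[X]) (x : ℤ) : Prop :=
  ∀ j : ℕ, (d : ℝ) ^ j ≤ |(x : ℝ)| →
    |(x : ℝ)| ^ (-ε) * L ^ j * |((P.eval x : ℤ) : ℝ)| ≤ |(((T d m r)^[j] (P.eval x) : ℤ) : ℝ)| ∧
    |(((T d m r)^[j] (P.eval x) : ℤ) : ℝ)| ≤ |(x : ℝ)| ^ ε * L ^ j * |((P.eval x : ℤ) : ℝ)|

theorem fol_of {d : ℕ} {m r : ℤ → ℤ} {L ε : ℝ} (hL : 0 ≤ L) (hε : 0 < ε) {P : ℤ[X]} {x : ℤ} {R : ℝ}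
    (h6 : 6 ≤ R) (h1 : R < |(x : ℝ)|) (h2 : |(x : ℝ)| ≤ 2 * R)
    (h : Follows d m r L (ε / 2) (4 * R + 2) (P.eval x)) : Fol d m r L ε P x := by
  intro j hj
  obtain ⟨ha, hb⟩ := h j (by linarith)
  have hx0 : 0 < |(x : ℝ)| := by linarith
  have hY0 : 0 < 4 * R + 2 := by linarith
  have hYx : 4 * R + 2 ≤ |(x : ℝ)| ^ (2 : ℝ) := by
    rw [Real.rpow_two]
    nlinarith
  have hpow : (4 * R + 2) ^ (ε / 2) ≤ |(x : ℝ)| ^ ε := by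
    calc (4 * R + 2) ^ (ε / 2) ≤ (|(x : ℝ)| ^ (2 : ℝ)) ^ (ε / 2) :=
          Real.rpow_le_rpow hY0.le hYx (by positivity)
      _ = |(x : ℝ)| ^ ε := by
          rw [← Real.rpow_mul hx0.le]
          congr 1
          ring
  have hpow' : |(x : ℝ)| ^ (-ε) ≤ (4 * R + 2) ^ (-(ε / 2)) := by
    rw [Real.rpow_neg hx0.le, Real.rpow_neg hY0.le]
    exact inv_anti₀ (Real.rpow_pos_of_pos hY0 _) hpow
  have hc : 0 ≤ L ^ j * |((P.eval x : ℤ) : ℝ)| := mul_nonneg (pow_nonneg hL _) (abs_nonneg _)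
  constructor
  · refine le_trans ?_ ha
    rw [mul_assoc, mul_assoc]
    exact mul_le_mul_of_nonneg_right hpow' hc
  · refine hb.trans ?_
    rw [mul_assoc, mul_assoc]
    exact mul_le_mul_of_nonneg_right hpow hc

theorem fin_abs (Q : ℤ → Prop) (X : ℝ) : {x : ℤ | |(x : ℝ)| ≤ X ∧ Q x}.Finite := by
  refine (Set.finite_Icc (-⌊X⌋) ⌊X⌋).subset ?_
  rintro k ⟨h1, -⟩
  rw [abs_le] at h1
  rw [Set.mem_Icc]
  constructor
  · rw [neg_le]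
    apply Int.le_floor.2
    push_cast
    linarith [h1.1]
  · exact Int.le_floor.2 h1.2

theorem count_small (Q : ℤ → Prop) {X : ℝ} (hX : X ≤ 6) : ({x : ℤ | |(x : ℝ)| ≤ X ∧ Q x}.ncard : ℝ) ≤ 13 := by
  have hsub : {x : ℤ | |(x : ℝ)| ≤ X ∧ Q x} ⊆ ((Finset.Icc (-6 : ℤ) 6 : Finset ℤ) : Set ℤ) := by
    rintro x ⟨hx, -⟩
    have h3 : |(x : ℝ)| ≤ 6 := hx.trans hX
    have h4 : |x| ≤ 6 := by exact_mod_cast h3
    rw [Finset.mem_coe, Finset.mem_Icc]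
    rw [abs_le] at h4
    exact h4
  have h5 := Set.ncard_le_ncard hsub (Finset.finite_toSet _)
  rw [Set.ncard_coe_finset] at h5
  have h6 : (Finset.Icc (-6 : ℤ) 6).card = 13 := by decide
  rw [h6] at h5
  exact_mod_cast h5

/-- **the count**: at most `K X ^ (1 - δ)` integers of `[-X, X]` are bad -/
theorem count_fol (d : ℕ) (m r b : ℤ → ℤ) (e : ℤ → ℕ) (D : Data d m r b e) (C : Finset (ℤ × ℕ))
    (ρ : ℤ × ℕ → ℝ) (hC : Class d m r e C ρ) (f : ℤ[X]) (hf : 1 ≤ f.natDegree)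
    (hne : 2 ≤ f.natDegree ∨ 1 / (d : ℝ) < Lam d m C ρ) (ε : ℝ) (hε : 0 < ε) :
    ∃ δ K : ℝ, 0 < δ ∧ δ ≤ 1 / 2 ∧ 0 < K ∧ ∀ X : ℝ, 1 ≤ X →
      ({x : ℤ | |(x : ℝ)| ≤ X ∧ (f.eval x ∈ S d C ∧ ¬ Fol d m r (Lam d m C ρ) ε f x)}.ncard : ℝ) ≤ K * X ^ (1 - δ) := by
  obtain ⟨δ0, K0, hδ0, hK0, h0⟩ :=
    (Pool.Agent.Results.MP_39d40e_nt.PolynomialTrajectories.result d m r b e D C ρ hC f hf hne (ε / 2) (by positivity)).1
  have hL := (lam_pos (C := C) (ρ := ρ) D).le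
  set L := Lam d m C ρ with hLdef
  obtain ⟨δ, hδ, hδ1, hδ2⟩ : ∃ δ : ℝ, 0 < δ ∧ δ ≤ δ0 ∧ δ ≤ 1 / 2 :=
    ⟨min δ0 (1 / 2), lt_min hδ0 (by norm_num), min_le_left _ _, min_le_right _ _⟩
  set Q : ℤ → Prop := fun x => f.eval x ∈ S d C ∧ ¬ Fol d m r L ε f x with hQ
  set K1 : ℝ := 13 + 13 * K0 with hK1
  have hstep : ∀ R : ℝ, 6 ≤ R → ({x : ℤ | |(x : ℝ)| ≤ 2 * R ∧ Q x}.ncard : ℝ) ≤
      ({x : ℤ | |(x : ℝ)| ≤ R ∧ Q x}.ncard : ℝ) + 5 * K0 * R ^ (1 - δ) := by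
    intro R hR
    have hR0 : 0 < R := by linarith
    have hb := h0 (-⌊2 * R⌋ - 1) (4 * R + 2) (by linarith)
    have hsub : {x : ℤ | |(x : ℝ)| ≤ 2 * R ∧ Q x} ⊆ {x : ℤ | |(x : ℝ)| ≤ R ∧ Q x} ∪
        {n : ℤ | -⌊2 * R⌋ - 1 < n ∧ (n : ℝ) ≤ ((-⌊2 * R⌋ - 1 : ℤ) : ℝ) + (4 * R + 2) ∧ f.eval n ∈ S d C ∧
        ¬ Follows d m r L (ε / 2) (4 * R + 2) (f.eval n)} := by
      rintro x ⟨h1, h2, h3⟩
      rcases le_or_gt |(x : ℝ)| R with h4 | h4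
      · exact Or.inl ⟨h4, h2, h3⟩
      · right
        refine ⟨?_, ?_, h2, fun h5 => h3 (fol_of hL hε hR h4 h1 h5)⟩
        · have h6 : -x ≤ ⌊2 * R⌋ := by
            apply Int.le_floor.2
            push_cast
            linarith [(abs_le.1 h1).1]
          omega
        · have h6 := (abs_le.1 h1).2
          have h7 : (⌊2 * R⌋ : ℝ) ≤ 2 * R := Int.floor_le _
          push_cast
          linarith
    have hfin2 : {n : ℤ | -⌊2 * R⌋ - 1 < n ∧ (n : ℝ) ≤ ((-⌊2 * R⌋ - 1 : ℤ) : ℝ) + (4 * R + 2) ∧ f.eval n ∈ S d C ∧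
        ¬ Follows d m r L (ε / 2) (4 * R + 2) (f.eval n)}.Finite := by
      refine (Set.finite_Icc (-⌊2 * R⌋ - 1) ⌈((-⌊2 * R⌋ - 1 : ℤ) : ℝ) + (4 * R + 2)⌉).subset ?_
      rintro n ⟨h1, h2, -⟩
      refine ⟨h1.le, ?_⟩
      have := h2.trans (Int.le_ceil _)
      exact_mod_cast this
    have h1 := Set.ncard_le_ncard hsub ((fin_abs Q R).union hfin2)
    have h2 := h1.trans (Set.ncard_union_le _ _)
    have h3 : ({x : ℤ | |(x : ℝ)| ≤ 2 * R ∧ Q x}.ncard : ℝ) ≤ ({x : ℤ | |(x : ℝ)| ≤ R ∧ Q x}.ncard : ℝ) +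
      ({n : ℤ | -⌊2 * R⌋ - 1 < n ∧ (n : ℝ) ≤ ((-⌊2 * R⌋ - 1 : ℤ) : ℝ) + (4 * R + 2) ∧ f.eval n ∈ S d C ∧
        ¬ Follows d m r L (ε / 2) (4 * R + 2) (f.eval n)}.ncard : ℝ) := by exact_mod_cast h2
    refine h3.trans (add_le_add le_rfl (hb.trans ?_))
    have h4 : (4 * R + 2) ^ (1 - δ0) ≤ (5 * R) ^ (1 - δ) :=
      calc (4 * R + 2) ^ (1 - δ0) ≤ (4 * R + 2) ^ (1 - δ) :=
            Real.rpow_le_rpow_of_exponent_le (by linarith) (by linarith)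
        _ ≤ _ := Real.rpow_le_rpow (by linarith) (by linarith) (by linarith)
    have h5 : (5 * R) ^ (1 - δ) ≤ 5 * R ^ (1 - δ) := by
      rw [Real.mul_rpow (by norm_num) hR0.le]
      apply mul_le_mul_of_nonneg_right _ (by positivity)
      calc (5 : ℝ) ^ (1 - δ) ≤ 5 ^ (1 : ℝ) := Real.rpow_le_rpow_of_exponent_le (by norm_num) (by linarith)
        _ = 5 := Real.rpow_one 5
    calc K0 * (4 * R + 2) ^ (1 - δ0) ≤ K0 * (5 * R ^ (1 - δ)) :=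
          mul_le_mul_of_nonneg_left (h4.trans h5) hK0.le
      _ = _ := by ring
  have h2pow : (7 / 5 : ℝ) ≤ 2 ^ (1 - δ) := by
    calc (7 / 5 : ℝ) ≤ 2 ^ (1 / 2 : ℝ) := by
          rw [← Real.sqrt_eq_rpow]
          apply Real.le_sqrt_of_sq_le
          norm_num
      _ ≤ _ := Real.rpow_le_rpow_of_exponent_le (by norm_num) (by linarith)
  have hind : ∀ i : ℕ, ({x : ℤ | |(x : ℝ)| ≤ 6 * 2 ^ i ∧ Q x}.ncard : ℝ) ≤ K1 * (6 * 2 ^ i) ^ (1 - δ) := by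
    intro i
    induction i with
    | zero =>
      refine (count_small Q (by norm_num)).trans ?_
      have h1 : (1 : ℝ) ≤ (6 * 2 ^ 0) ^ (1 - δ) := Real.one_le_rpow (by norm_num) (by linarith)
      have h2 : 13 ≤ K1 := by rw [hK1]; linarith
      nlinarith
    | succ i ih =>
      have h1 : (6 : ℝ) ≤ 6 * 2 ^ i := by
        have : (1 : ℝ) ≤ 2 ^ i := one_le_pow₀ (by norm_num)
        linarith
      have h2 := hstep (6 * 2 ^ i) h1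
      have e1 : (6 : ℝ) * 2 ^ (i + 1) = 2 * (6 * 2 ^ i) := by ring
      rw [e1]
      refine h2.trans ?_
      rw [Real.mul_rpow (by norm_num : (0 : ℝ) ≤ 2) (by positivity)]
      have h3 : 0 ≤ ((6 : ℝ) * 2 ^ i) ^ (1 - δ) := by positivity
      have h4 : K1 + 5 * K0 ≤ K1 * 2 ^ (1 - δ) := by
        have h5 : 0 ≤ K1 := by rw [hK1]; linarith
        have h6 : K1 * (7 / 5) ≤ K1 * 2 ^ (1 - δ) := mul_le_mul_of_nonneg_left h2pow h5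
        rw [hK1] at h6 ⊢
        linarith
      nlinarith
  refine ⟨δ, 2 * K1, hδ, hδ2, by rw [hK1]; positivity, fun X hX => ?_⟩
  have hX0 : 0 < X := by linarith
  have hK10 : 0 ≤ K1 := by rw [hK1]; positivity
  rcases le_or_gt X 6 with h6 | h6
  · refine (count_small Q h6).trans ?_
    have h1 : (1 : ℝ) ≤ X ^ (1 - δ) := Real.one_le_rpow hX (by linarith)
    have h2 : 13 ≤ K1 := by rw [hK1]; linarith
    nlinarith
  · obtain ⟨i, hi1, hi2⟩ : ∃ i : ℕ, (2 : ℝ) ^ i ≤ X / 6 ∧ X / 6 < 2 ^ (i + 1) :=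
      exists_nat_pow_near (by linarith) (by norm_num)
    have hsub : {x : ℤ | |(x : ℝ)| ≤ X ∧ Q x} ⊆ {x : ℤ | |(x : ℝ)| ≤ 6 * 2 ^ (i + 1) ∧ Q x} := by
      rintro x ⟨h1, h2⟩
      exact ⟨by linarith, h2⟩
    have h1 : ({x : ℤ | |(x : ℝ)| ≤ X ∧ Q x}.ncard : ℝ) ≤ ({x : ℤ | |(x : ℝ)| ≤ 6 * 2 ^ (i + 1) ∧ Q x}.ncard : ℝ) := by
      exact_mod_cast Set.ncard_le_ncard hsub (fin_abs Q _)
    refine h1.trans ((hind (i + 1)).trans ?_)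
    have h2 : ((6 : ℝ) * 2 ^ (i + 1)) ^ (1 - δ) ≤ (2 * X) ^ (1 - δ) := by
      apply Real.rpow_le_rpow (by positivity) _ (by linarith)
      rw [pow_succ]
      linarith
    have h3 : (2 * X) ^ (1 - δ) ≤ 2 * X ^ (1 - δ) := by
      rw [Real.mul_rpow (by norm_num) hX0.le]
      apply mul_le_mul_of_nonneg_right _ (by positivity)
      calc (2 : ℝ) ^ (1 - δ) ≤ 2 ^ (1 : ℝ) := Real.rpow_le_rpow_of_exponent_le (by norm_num) (by linarith)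
        _ = 2 := Real.rpow_one 2
    calc K1 * (6 * 2 ^ (i + 1)) ^ (1 - δ) ≤ K1 * (2 * X ^ (1 - δ)) := mul_le_mul_of_nonneg_left (h2.trans h3) hK10
      _ = _ := by ring

end Pool.Agent.J6H80.NP
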