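import Pool.Agent.J6H80.NP.Law

/-!
# The 3x+1 map as an example of Leigh's chain; almost all parameters
-/

set_option autoImplicit false

namespace Pool.Agent.J6H80.NP

open Polynomial Pool.Agent.H319R2.Leigh MeasureTheory Filter Topology
open Pool.Agent.Results.MP_39d40e_nt.PolynomialTrajectories (lam_pos)

/-- the multipliers of the `3x + 1` map -/
def cm (i : ℤ) : ℤ := if i = 0 then 1 else 3

/-- the shifts of the `3x + 1` map -/
def cr (i : ℤ) : ℤ := if i = 0 then 0 else -1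

/-- the class of the chain of the `3x + 1` map -/
def cC : Finset (ℤ × ℕ) := {(0, 1), (1, 1)}

theorem cdata : Data 2 cm cr cm (fun _ => 1) where
  two_le := le_rfl
  fac := by intro i _ _; simp
  cop := by
    intro i h0 h1
    have : i = 0 ∨ i = 1 := by push_cast at h1; omega
    rcases this with rfl | rfl
    · simp [cm, isCoprime_one_left]
    · refine ⟨1, -1, ?_⟩
      simp [cm]
  pos := by intro i _ _; exact le_rfl
  dvd_pow := by intro i _ _; exact ⟨0, one_dvd _⟩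
  cong := by
    intro i h0 h1
    have : i = 0 ∨ i = 1 := by push_cast at h1; omega
    rcases this with rfl | rfl
    · simp [cm, cr]
    · simp only [cm, cr]
      decide

theorem cP (B B' : ℤ × ℕ) (hB : B ∈ cC) (hB' : B' ∈ cC) : P 2 cm cr (fun _ => 1) B B' = 1 / 2 := by
  have h1 : B.2 = 1 := by
    simp only [cC, Finset.mem_insert, Finset.mem_singleton] at hB
    rcases hB with rfl | rfl <;> rfl
  have h2 : B'.2 = 1 ∧ 0 ≤ B'.1 ∧ B'.1 < 2 := by
    simp only [cC, Finset.mem_insert, Finset.mem_singleton] at hB'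
    rcases hB' with rfl | rfl <;> norm_num
  obtain ⟨h2, h3, h4⟩ := h2
  unfold P
  rw [h1, h2, if_pos]
  · norm_num
  · refine ⟨by norm_num, h3, by push_cast; linarith, ?_⟩
    simp [Int.modEq_one]

theorem cclass : Class 2 cm cr (fun _ => 1) cC (fun _ => 1 / 2) where
  state := by
    intro B hB
    simp only [cC, Finset.mem_insert, Finset.mem_singleton] at hB
    rcases hB with rfl | rfl
    · exact ⟨le_rfl, by norm_num, 0, by norm_num⟩
    · exact ⟨by norm_num, by norm_num, 0, by norm_num⟩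
  closed := by
    intro B hB B' h
    have h1 : B.2 = 1 := by
      simp only [cC, Finset.mem_insert, Finset.mem_singleton] at hB
      rcases hB with rfl | rfl <;> rfl
    unfold P at h
    rw [h1] at h
    split_ifs at h with h2
    · obtain ⟨e1, e2, e3, -⟩ := h2
      obtain ⟨j, k⟩ := B'
      have e4 : k = 1 := by
        simpa using e1
      subst e4
      simp only [cC, Finset.mem_insert, Finset.mem_singleton, Prod.mk.injEq, and_true]
      push_cast at e3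
      simp only at e2 e3
      omega
    · exact absurd h (lt_irrefl _)
  comm := by
    intro B hB B' hB'
    apply Relation.ReflTransGen.single
    rw [cP B B' hB hB']
    norm_num
  nonneg := by intro B _; norm_num
  sum_one := by
    rw [Finset.sum_const, show cC.card = 2 by decide]
    norm_num
  stat := by
    intro B' hB'
    have : ∀ B ∈ cC, (1 / 2 : ℝ) * P 2 cm cr (fun _ => 1) B B' = 1 / 4 := by
      intro B hB
      rw [cP B B' hB hB']
      norm_num
    rw [Finset.sum_congr rfl this, Finset.sum_const, show cC.card = 2 by decide]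
    norm_num

theorem clam : Lam 2 cm cC (fun _ => 1 / 2) = Real.sqrt 3 / 2 := by
  unfold Lam
  rw [Finset.prod_range_succ, Finset.prod_range_one]
  have f0 : freq 2 cC (fun _ => 1 / 2) 0 = 1 / 2 := by
    unfold freq
    rw [Finset.sum_const, show (cC.filter (fun B => B.1 % ((2 : ℕ) : ℤ) = ((0 : ℕ) : ℤ))).card = 1 by decide]
    norm_num
  have f1 : freq 2 cC (fun _ => 1 / 2) 1 = 1 / 2 := by
    unfold freq
    rw [Finset.sum_const, show (cC.filter (fun B => B.1 % ((2 : ℕ) : ℤ) = ((1 : ℕ) : ℤ))).card = 1 by decide]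
    norm_num
  rw [f0, f1]
  have g0 : (|((cm ((0 : ℕ) : ℤ) : ℤ) : ℝ)| / ((2 : ℕ) : ℝ)) = 1 / 2 := by simp [cm]
  have g1 : (|((cm ((1 : ℕ) : ℤ) : ℤ) : ℝ)| / ((2 : ℕ) : ℝ)) = 3 / 2 := by simp [cm]
  rw [g0, g1, ← Real.mul_rpow (by norm_num) (by norm_num), ← Real.sqrt_eq_rpow,
    show (1 / 2 * (3 / 2) : ℝ) = 3 / 2 ^ 2 by norm_num, Real.sqrt_div (by norm_num), Real.sqrt_sq (by norm_num)]

theorem cS (x : ℤ) : x ∈ S 2 cC := by
  rcases Int.emod_two_eq_zero_or_one x with h | h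
  · refine ⟨(0, 1), by simp [cC], ?_⟩
    show x ≡ 0 [ZMOD ((2 * 1 : ℕ) : ℤ)]
    simpa [Int.ModEq] using h
  · refine ⟨(1, 1), by simp [cC], ?_⟩
    show x ≡ 1 [ZMOD ((2 * 1 : ℕ) : ℤ)]
    simpa [Int.ModEq] using h

/-- the `3x + 1` map -/
def Col (x : ℤ) : ℤ := if x % 2 = 0 then x / 2 else (3 * x + 1) / 2

theorem cT : T 2 cm cr = Col := by
  funext x
  unfold T Col
  rcases Int.emod_two_eq_zero_or_one x with h | h
  · rw [if_pos h]
    have : x % ((2 : ℕ) : ℤ) = 0 := by simpa using h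
    rw [this]
    simp [cm, cr]
  · rw [if_neg (by omega)]
    have : x % ((2 : ℕ) : ℤ) = 1 := by simpa using h
    rw [this]
    simp [cm, cr]

/-- **almost all parameters, all polynomials at once** -/
theorem ae_law (d : ℕ) (m r b : ℤ → ℤ) (e : ℤ → ℕ) (D : Data d m r b e) (C : Finset (ℤ × ℕ))
    (ρ : ℤ × ℕ → ℝ) (hC : Class d m r e C ρ) (a : ℝ) (f : ℕ → ℝ → ℝ) (hf : Pool.Agent.R482.ST.Starshaped a f)
    (hv : Pool.Agent.R482.ST.Conv a f 0) :
    ∃ N : Set ℝ, volume N = 0 ∧ ∀ α : ℝ, a < α → α ∉ N → ∀ P : ℤ[X], 1 ≤ P.natDegree →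
      (2 ≤ P.natDegree ∨ 1 / (d : ℝ) < Lam d m C ρ) → ∀ ε : ℝ, 0 < ε → ∃ θ : ℝ, 0 < θ ∧ ∀ c : ℝ,
        ∃ k₀ : ℕ, ∀ k : ℕ, k₀ ≤ k → ∀ x : ℤ, |(|x| : ℝ) - f k α| ≤ c * (f k α) ^ θ →
          P.eval x ≠ 0 ∧ (P.eval x ∈ S d C → Law d m r (Lam d m C ρ) ε P x) := by
  have hone : ∀ (P : ℤ[X]) (n : ℕ), ∃ N : Set ℝ, volume N = 0 ∧ (1 ≤ P.natDegree →
      (2 ≤ P.natDegree ∨ 1 / (d : ℝ) < Lam d m C ρ) → ∃ θ : ℝ, 0 < θ ∧ ∀ α : ℝ, a < α → α ∉ N → ∀ c : ℝ,
        ∃ k₀ : ℕ, ∀ k : ℕ, k₀ ≤ k → ∀ x : ℤ, |(|x| : ℝ) - f k α| ≤ c * (f k α) ^ θ →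
          P.eval x ≠ 0 ∧ (P.eval x ∈ S d C → Law d m r (Lam d m C ρ) (1 / ((n : ℝ) + 1)) P x)) := by
    intro P n
    by_cases h1 : 1 ≤ P.natDegree ∧ (2 ≤ P.natDegree ∨ 1 / (d : ℝ) < Lam d m C ρ)
    · obtain ⟨δ, hδ, hδ', h⟩ := win_law d m r b e D C ρ hC P h1.1 h1.2 (1 / ((n : ℝ) + 1)) (by positivity)
      obtain ⟨E, hE, h2⟩ := h a f 0 (δ / 2) hf le_rfl hv (by linarith)
      refine ⟨E, ?_, fun _ _ => ⟨δ / 2, by positivity, fun α hα hαE c => h2 α hα hαE c⟩⟩
      have h3 : dimH E < 1 := by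
        refine lt_of_le_of_lt hE ?_
        rw [show (1 : ENNReal) = ENNReal.ofReal 1 by simp]
        rw [ENNReal.ofReal_lt_ofReal_iff one_pos, div_lt_one (by linarith)]
        linarith
      have h4 : (MeasureTheory.Measure.hausdorffMeasure 1 : Measure ℝ) E = 0 := by
        have := hausdorffMeasure_of_dimH_lt (s := E) (d := 1) (by exact_mod_cast h3)
        simpa using this
      rwa [hausdorffMeasure_real] at h4
    · refine ⟨∅, measure_empty, fun h2 h3 => absurd ⟨h2, h3⟩ h1⟩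
  choose G hG1 hG2 using hone
  haveI : Countable ℤ[X] := by
    rw [← Cardinal.mk_le_aleph0_iff]
    exact (Polynomial.cardinalMk_le_max).trans (by simp)
  refine ⟨⋃ P, ⋃ n, G P n, measure_iUnion_null fun P => measure_iUnion_null fun n => hG1 P n,
    fun α hα hαN P hP hne ε hε => ?_⟩
  obtain ⟨n, hn⟩ := exists_nat_one_div_lt hε
  obtain ⟨θ, hθ, h⟩ := hG2 P n hP hne
  refine ⟨θ, hθ, fun c => ?_⟩
  obtain ⟨k₀, hk⟩ := h α hα (fun hmem => hαN (Set.mem_iUnion.2 ⟨P, Set.mem_iUnion.2 ⟨n, hmem⟩⟩)) c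
  refine ⟨k₀, fun k hk0 x hx => ?_⟩
  obtain ⟨h1, h2⟩ := hk k hk0 x hx
  exact ⟨h1, fun hS => law_mono (lam_pos D).le hn.le h1 (h2 hS) (by have := D.two_le; omega)⟩

end Pool.Agent.J6H80.NP
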