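import Pool.Agent.J6H80.NP.Cnt
import Pool.Agent.R482.ST.Star

/-!
# The integers whose polynomial value obeys the law of Leigh's chain, near the values of starshaped functions
-/

set_option autoImplicit false

namespace Pool.Agent.J6H80.NP

open Polynomial Pool.Agent.H319R2.Leigh MeasureTheory Filter Topology
open Pool.Agent.Results.MP_39d40e_nt.PolynomialTrajectories (lam_pos)

/-- The trajectory of `P x` obeys the law with number `L` up to `ε`: the terms `T^j (P x)` with `d ^ j ≤ |x|` have absolute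
value `L ^ j |P x|`, up to a factor between `|x| ^ (-ε)` and `|x| ^ ε`; if `L < 1` the trajectory has a term of absolute value
at most `|P x| ^ (1 + log_d L / deg P + ε)`, and if `L > 1` one of at least `|P x| ^ (1 + log_d L / deg P - ε)`. -/
def Law (d : ℕ) (m r : ℤ → ℤ) (L ε : ℝ) (P : ℤ[X]) (x : ℤ) : Prop :=
  Fol d m r L ε P x ∧
  (L < 1 → ∃ k : ℕ, |(((T d m r)^[k] (P.eval x) : ℤ) : ℝ)| ≤
    |((P.eval x : ℤ) : ℝ)| ^ (1 + Real.log L / Real.log d / P.natDegree + ε)) ∧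
  (1 < L → ∃ k : ℕ, |((P.eval x : ℤ) : ℝ)| ^ (1 + Real.log L / Real.log d / P.natDegree - ε) ≤
    |(((T d m r)^[k] (P.eval x) : ℤ) : ℝ)|)

/-- `K₁ X ^ (1 - δ₁) ≤ K₁ X ^ (1 - δ)` -/
theorem weaken {δ δ1 K1 : ℝ} (h : δ ≤ δ1) (hK : 0 ≤ K1) {X : ℝ} (hX : 1 ≤ X) :
    K1 * X ^ (1 - δ1) ≤ K1 * X ^ (1 - δ) :=
  mul_le_mul_of_nonneg_left (Real.rpow_le_rpow_of_exponent_le hX (by linarith)) hK

/-- the count of the integers for which the law fails -/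
theorem count_law (d : ℕ) (m r b : ℤ → ℤ) (e : ℤ → ℕ) (D : Data d m r b e) (C : Finset (ℤ × ℕ))
    (ρ : ℤ × ℕ → ℝ) (hC : Class d m r e C ρ) (f : ℤ[X]) (hf : 1 ≤ f.natDegree)
    (hne : 2 ≤ f.natDegree ∨ 1 / (d : ℝ) < Lam d m C ρ) (ε : ℝ) (hε : 0 < ε) :
    ∃ δ K : ℝ, 0 < δ ∧ δ ≤ 1 / 2 ∧ 0 < K ∧ ∀ X : ℝ, 1 ≤ X →
      ({x : ℤ | |(x : ℝ)| ≤ X ∧ (f.eval x ∈ S d C ∧ ¬ Law d m r (Lam d m C ρ) ε f x)}.ncard : ℝ) ≤ K * X ^ (1 - δ) := by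
  obtain ⟨δ1, K1, hδ1, hδ1', hK1, h1⟩ := count_fol d m r b e D C ρ hC f hf hne ε hε
  obtain ⟨-, hlow, hhigh⟩ := Pool.Agent.Results.MP_39d40e_nt.PolynomialTrajectories.result d m r b e D C ρ hC f hf hne ε hε
  set L := Lam d m C ρ with hLdef
  have hlow' : ∃ δ K : ℝ, 0 < δ ∧ 0 < K ∧ ∀ X : ℝ, 1 ≤ X → ({x : ℤ | |(x : ℝ)| ≤ X ∧ (f.eval x ∈ S d C ∧
      ¬ (L < 1 → ∃ k : ℕ, |(((T d m r)^[k] (f.eval x) : ℤ) : ℝ)| ≤
        |((f.eval x : ℤ) : ℝ)| ^ (1 + Real.log L / Real.log d / f.natDegree + ε)))}.ncard : ℝ) ≤ K * X ^ (1 - δ) := by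
    rcases lt_or_ge L 1 with hL | hL
    · obtain ⟨δ, K, hδ, hK, h⟩ := hlow hL
      refine ⟨δ, K, hδ, hK, fun X hX => le_trans ?_ (h X hX)⟩
      have : {x : ℤ | |(x : ℝ)| ≤ X ∧ (f.eval x ∈ S d C ∧
        ¬ (L < 1 → ∃ k : ℕ, |(((T d m r)^[k] (f.eval x) : ℤ) : ℝ)| ≤
        |((f.eval x : ℤ) : ℝ)| ^ (1 + Real.log L / Real.log d / f.natDegree + ε)))} ⊆
        {n : ℤ | |(n : ℝ)| ≤ X ∧ f.eval n ∈ S d C ∧ ∀ k : ℕ,
        |((f.eval n : ℤ) : ℝ)| ^ (1 + Real.log L / Real.log d / f.natDegree + ε) <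
          |(((T d m r)^[k] (f.eval n) : ℤ) : ℝ)|} := by
        rintro x ⟨hx1, hx2, hx3⟩
        refine ⟨hx1, hx2, fun k => ?_⟩
        by_contra hcon
        exact hx3 fun _ => ⟨k, not_lt.1 hcon⟩
      exact_mod_cast Set.ncard_le_ncard this (fin_abs _ X)
    · refine ⟨1, 1, one_pos, one_pos, fun X hX => ?_⟩
      have : {x : ℤ | |(x : ℝ)| ≤ X ∧ (f.eval x ∈ S d C ∧
        ¬ (L < 1 → ∃ k : ℕ, |(((T d m r)^[k] (f.eval x) : ℤ) : ℝ)| ≤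
        |((f.eval x : ℤ) : ℝ)| ^ (1 + Real.log L / Real.log d / f.natDegree + ε)))} = ∅ := by
        rw [Set.eq_empty_iff_forall_notMem]
        rintro x ⟨-, -, hx3⟩
        exact hx3 fun h => absurd h (not_lt.2 hL)
      rw [this, Set.ncard_empty, Nat.cast_zero]
      positivity
  have hhigh' : ∃ δ K : ℝ, 0 < δ ∧ 0 < K ∧ ∀ X : ℝ, 1 ≤ X → ({x : ℤ | |(x : ℝ)| ≤ X ∧ (f.eval x ∈ S d C ∧
      ¬ (1 < L → ∃ k : ℕ, |((f.eval x : ℤ) : ℝ)| ^ (1 + Real.log L / Real.log d / f.natDegree - ε) ≤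
        |(((T d m r)^[k] (f.eval x) : ℤ) : ℝ)|))}.ncard : ℝ) ≤ K * X ^ (1 - δ) := by
    rcases lt_or_ge 1 L with hL | hL
    · obtain ⟨δ, K, hδ, hK, h⟩ := hhigh hL
      refine ⟨δ, K, hδ, hK, fun X hX => le_trans ?_ (h X hX)⟩
      have : {x : ℤ | |(x : ℝ)| ≤ X ∧ (f.eval x ∈ S d C ∧
        ¬ (1 < L → ∃ k : ℕ, |((f.eval x : ℤ) : ℝ)| ^ (1 + Real.log L / Real.log d / f.natDegree - ε) ≤
        |(((T d m r)^[k] (f.eval x) : ℤ) : ℝ)|))} ⊆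
        {n : ℤ | |(n : ℝ)| ≤ X ∧ f.eval n ∈ S d C ∧ ∀ k : ℕ,
        |(((T d m r)^[k] (f.eval n) : ℤ) : ℝ)| <
          |((f.eval n : ℤ) : ℝ)| ^ (1 + Real.log L / Real.log d / f.natDegree - ε)} := by
        rintro x ⟨hx1, hx2, hx3⟩
        refine ⟨hx1, hx2, fun k => ?_⟩
        by_contra hcon
        exact hx3 fun _ => ⟨k, not_lt.1 hcon⟩
      exact_mod_cast Set.ncard_le_ncard this (fin_abs _ X)
    · refine ⟨1, 1, one_pos, one_pos, fun X hX => ?_⟩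
      have : {x : ℤ | |(x : ℝ)| ≤ X ∧ (f.eval x ∈ S d C ∧
        ¬ (1 < L → ∃ k : ℕ, |((f.eval x : ℤ) : ℝ)| ^ (1 + Real.log L / Real.log d / f.natDegree - ε) ≤
        |(((T d m r)^[k] (f.eval x) : ℤ) : ℝ)|))} = ∅ := by
        rw [Set.eq_empty_iff_forall_notMem]
        rintro x ⟨-, -, hx3⟩
        exact hx3 fun h => absurd h (not_lt.2 hL)
      rw [this, Set.ncard_empty, Nat.cast_zero]
      positivity
  obtain ⟨δ2, K2, hδ2, hK2, h2⟩ := hlow'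
  obtain ⟨δ3, K3, hδ3, hK3, h3⟩ := hhigh'
  obtain ⟨δ, hδ, e1, e2, e3⟩ : ∃ δ : ℝ, 0 < δ ∧ δ ≤ δ1 ∧ δ ≤ δ2 ∧ δ ≤ δ3 :=
    ⟨min δ1 (min δ2 δ3), lt_min hδ1 (lt_min hδ2 hδ3), min_le_left _ _, (min_le_right _ _).trans (min_le_left _ _),
      (min_le_right _ _).trans (min_le_right _ _)⟩
  refine ⟨δ, K1 + K2 + K3, hδ, e1.trans hδ1', by positivity, fun X hX => ?_⟩
  have q1 := (h1 X hX).trans (weaken e1 hK1.le hX)
  have q2 := (h2 X hX).trans (weaken e2 hK2.le hX)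
  have q3 := (h3 X hX).trans (weaken e3 hK3.le hX)
  have hsub : {x : ℤ | |(x : ℝ)| ≤ X ∧ (f.eval x ∈ S d C ∧ ¬ Law d m r L ε f x)} ⊆
      ({x : ℤ | |(x : ℝ)| ≤ X ∧ (f.eval x ∈ S d C ∧ ¬ Fol d m r L ε f x)} ∪
      {x : ℤ | |(x : ℝ)| ≤ X ∧ (f.eval x ∈ S d C ∧
      ¬ (L < 1 → ∃ k : ℕ, |(((T d m r)^[k] (f.eval x) : ℤ) : ℝ)| ≤
        |((f.eval x : ℤ) : ℝ)| ^ (1 + Real.log L / Real.log d / f.natDegree + ε)))}) ∪
      {x : ℤ | |(x : ℝ)| ≤ X ∧ (f.eval x ∈ S d C ∧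
      ¬ (1 < L → ∃ k : ℕ, |((f.eval x : ℤ) : ℝ)| ^ (1 + Real.log L / Real.log d / f.natDegree - ε) ≤
        |(((T d m r)^[k] (f.eval x) : ℤ) : ℝ)|))} := by
    rintro x ⟨hx1, hx2, hx3⟩
    unfold Law at hx3
    by_cases g1 : Fol d m r L ε f x
    · by_cases g2 : (L < 1 → ∃ k : ℕ, |(((T d m r)^[k] (f.eval x) : ℤ) : ℝ)| ≤
        |((f.eval x : ℤ) : ℝ)| ^ (1 + Real.log L / Real.log d / f.natDegree + ε))
      · exact Or.inr ⟨hx1, hx2, fun g3 => hx3 ⟨g1, g2, g3⟩⟩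
      · exact Or.inl (Or.inr ⟨hx1, hx2, g2⟩)
    · exact Or.inl (Or.inl ⟨hx1, hx2, g1⟩)
  have q4 := (Set.ncard_le_ncard hsub (((fin_abs _ X).union (fin_abs _ X)).union (fin_abs _ X))).trans
    ((Set.ncard_union_le _ _).trans (add_le_add (Set.ncard_union_le _ _) le_rfl))
  have q5 : ({x : ℤ | |(x : ℝ)| ≤ X ∧ (f.eval x ∈ S d C ∧ ¬ Law d m r L ε f x)}.ncard : ℝ) ≤
      ({x : ℤ | |(x : ℝ)| ≤ X ∧ (f.eval x ∈ S d C ∧ ¬ Fol d m r L ε f x)}.ncard : ℝ) +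
      ({x : ℤ | |(x : ℝ)| ≤ X ∧ (f.eval x ∈ S d C ∧
      ¬ (L < 1 → ∃ k : ℕ, |(((T d m r)^[k] (f.eval x) : ℤ) : ℝ)| ≤
        |((f.eval x : ℤ) : ℝ)| ^ (1 + Real.log L / Real.log d / f.natDegree + ε)))}.ncard : ℝ) +
      ({x : ℤ | |(x : ℝ)| ≤ X ∧ (f.eval x ∈ S d C ∧
      ¬ (1 < L → ∃ k : ℕ, |((f.eval x : ℤ) : ℝ)| ^ (1 + Real.log L / Real.log d / f.natDegree - ε) ≤
        |(((T d m r)^[k] (f.eval x) : ℤ) : ℝ)|))}.ncard : ℝ) := by exact_mod_cast q4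
  refine q5.trans ?_
  calc _ ≤ K1 * X ^ (1 - δ) + K2 * X ^ (1 - δ) + K3 * X ^ (1 - δ) := add_le_add (add_le_add q1 q2) q3
    _ = _ := by ring

/-- the same with the zeros of the polynomial -/
theorem count_law' (d : ℕ) (m r b : ℤ → ℤ) (e : ℤ → ℕ) (D : Data d m r b e) (C : Finset (ℤ × ℕ))
    (ρ : ℤ × ℕ → ℝ) (hC : Class d m r e C ρ) (f : ℤ[X]) (hf : 1 ≤ f.natDegree)
    (hne : 2 ≤ f.natDegree ∨ 1 / (d : ℝ) < Lam d m C ρ) (ε : ℝ) (hε : 0 < ε) :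
    ∃ δ K : ℝ, 0 < δ ∧ δ ≤ 1 / 2 ∧ 0 < K ∧ ∀ X : ℝ, 1 ≤ X →
      ({x : ℤ | |(x : ℝ)| ≤ X ∧ (f.eval x = 0 ∨ f.eval x ∈ S d C ∧ ¬ Law d m r (Lam d m C ρ) ε f x)}.ncard : ℝ) ≤
        K * X ^ (1 - δ) := by
  obtain ⟨δ, K, hδ, hδ', hK, h⟩ := count_law d m r b e D C ρ hC f hf hne ε hε
  refine ⟨δ, K + f.natDegree, hδ, hδ', by positivity, fun X hX => ?_⟩
  have hf0 : f ≠ 0 := by
    rintro rfl
    simp at hf
  have hsub : {x : ℤ | |(x : ℝ)| ≤ X ∧ (f.eval x = 0 ∨ f.eval x ∈ S d C ∧ ¬ Law d m r (Lam d m C ρ) ε f x)} ⊆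
      (f.roots.toFinset : Set ℤ) ∪
      {x : ℤ | |(x : ℝ)| ≤ X ∧ (f.eval x ∈ S d C ∧ ¬ Law d m r (Lam d m C ρ) ε f x)} := by
    rintro x ⟨h1, h2 | h2⟩
    · left
      rw [Finset.mem_coe, Multiset.mem_toFinset, mem_roots hf0]
      exact h2
    · exact Or.inr ⟨h1, h2⟩
  have h1 := (Set.ncard_le_ncard hsub ((Finset.finite_toSet _).union (fin_abs _ X))).trans (Set.ncard_union_le _ _)
  rw [Set.ncard_coe_finset] at h1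
  have h2 : f.roots.toFinset.card ≤ f.natDegree := (Multiset.toFinset_card_le _).trans (card_roots' f)
  have h3 : ({x : ℤ | |(x : ℝ)| ≤ X ∧ (f.eval x = 0 ∨ f.eval x ∈ S d C ∧ ¬ Law d m r (Lam d m C ρ) ε f x)}.ncard : ℝ) ≤
      f.natDegree + ({x : ℤ | |(x : ℝ)| ≤ X ∧ (f.eval x ∈ S d C ∧ ¬ Law d m r (Lam d m C ρ) ε f x)}.ncard : ℝ) := by
    exact_mod_cast h1.trans (add_le_add h2 le_rfl)
  refine h3.trans ?_
  have h4 : (1 : ℝ) ≤ X ^ (1 - δ) := Real.one_le_rpow hX (by linarith)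
  have h5 : (0 : ℝ) ≤ f.natDegree := Nat.cast_nonneg _
  have h6 := h X hX
  nlinarith

/-- **windows**: all integers near the values of starshaped functions obey the law -/
theorem win_law (d : ℕ) (m r b : ℤ → ℤ) (e : ℤ → ℕ) (D : Data d m r b e) (C : Finset (ℤ × ℕ))
    (ρ : ℤ × ℕ → ℝ) (hC : Class d m r e C ρ) (P : ℤ[X]) (hP : 1 ≤ P.natDegree)
    (hne : 2 ≤ P.natDegree ∨ 1 / (d : ℝ) < Lam d m C ρ) (ε : ℝ) (hε : 0 < ε) :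
    ∃ δ : ℝ, 0 < δ ∧ δ ≤ 1 / 2 ∧ ∀ (a : ℝ) (f : ℕ → ℝ → ℝ) (τ θ : ℝ), Pool.Agent.R482.ST.Starshaped a f → 0 ≤ τ →
      Pool.Agent.R482.ST.Conv a f τ → θ < 1 →
      ∃ E : Set ℝ, dimH E ≤ ENNReal.ofReal ((1 - δ + τ) / (1 - θ)) ∧ ∀ α : ℝ, a < α → α ∉ E → ∀ c : ℝ,
        ∃ k₀ : ℕ, ∀ k : ℕ, k₀ ≤ k → ∀ x : ℤ, |(|x| : ℝ) - f k α| ≤ c * (f k α) ^ θ →
          P.eval x ≠ 0 ∧ (P.eval x ∈ S d C → Law d m r (Lam d m C ρ) ε P x) := by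
  obtain ⟨δ, K, hδ, hδ', hK, hcount⟩ := count_law' d m r b e D C ρ hC P hP hne ε hε
  refine ⟨δ, hδ, hδ', fun a f τ θ hf hτ hv hθ => ?_⟩
  obtain ⟨E, hE, h⟩ := Pool.Agent.R482.ST.windows
    {x : ℤ | P.eval x = 0 ∨ P.eval x ∈ S d C ∧ ¬ Law d m r (Lam d m C ρ) ε P x} (fun x : ℤ => |(x : ℝ)|) hf hτ hv
    (s := 1 - δ) (by linarith) hθ (by
      intro η hη
      refine ⟨K, fun X hX => ?_⟩
      have hset : {x : ℤ | x ∈ {x : ℤ | P.eval x = 0 ∨ P.eval x ∈ S d C ∧ ¬ Law d m r (Lam d m C ρ) ε P x} ∧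
          |(x : ℝ)| ≤ X} =
          {x : ℤ | |(x : ℝ)| ≤ X ∧ (P.eval x = 0 ∨ P.eval x ∈ S d C ∧ ¬ Law d m r (Lam d m C ρ) ε P x)} := by
        ext x
        exact and_comm
      rw [hset]
      refine ⟨fin_abs _ X, (hcount X hX).trans ?_⟩
      exact mul_le_mul_of_nonneg_left (Real.rpow_le_rpow_of_exponent_le hX (by linarith)) hK.le)
  refine ⟨E, hE, fun α hα hαE c => ?_⟩
  obtain ⟨k₀, hk⟩ := h α hα hαE c
  refine ⟨k₀, fun k hk0 x hx => ⟨fun h0 => ?_, fun hxS => ?_⟩⟩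
  · exact absurd (hk k hk0 x (Or.inl h0)) (not_lt.2 (by simpa using hx))
  · by_contra hcon
    exact absurd (hk k hk0 x (Or.inr ⟨hxS, hcon⟩)) (not_lt.2 (by simpa using hx))

/-- the law up to `η` implies the law up to `ε ≥ η` -/
theorem law_mono {d : ℕ} {m r : ℤ → ℤ} {L η ε : ℝ} (hL : 0 ≤ L) (h : η ≤ ε) {P : ℤ[X]} {x : ℤ} (h0 : P.eval x ≠ 0)
    (h1 : Law d m r L η P x) (hd : 1 ≤ d) : Law d m r L ε P x := by
  obtain ⟨a1, a2, a3⟩ := h1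
  have hP1 : (1 : ℝ) ≤ |((P.eval x : ℤ) : ℝ)| := by
    have := Int.one_le_abs h0
    exact_mod_cast this
  refine ⟨fun j hj => ?_, fun hl => ?_, fun hl => ?_⟩
  · obtain ⟨b1, b2⟩ := a1 j hj
    have hd1 : (1 : ℝ) ≤ (d : ℝ) ^ j := one_le_pow₀ (by exact_mod_cast hd)
    have hx : 1 ≤ |(x : ℝ)| := hd1.trans hj
    have hc : 0 ≤ L ^ j * |((P.eval x : ℤ) : ℝ)| := mul_nonneg (pow_nonneg hL _) (abs_nonneg _)
    constructor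
    · refine le_trans ?_ b1
      rw [mul_assoc, mul_assoc]
      exact mul_le_mul_of_nonneg_right (Real.rpow_le_rpow_of_exponent_le hx (by linarith)) hc
    · refine b2.trans ?_
      rw [mul_assoc, mul_assoc]
      exact mul_le_mul_of_nonneg_right (Real.rpow_le_rpow_of_exponent_le hx h) hc
  · obtain ⟨k, hk⟩ := a2 hl
    exact ⟨k, hk.trans (Real.rpow_le_rpow_of_exponent_le hP1 (by linarith))⟩
  · obtain ⟨k, hk⟩ := a3 hl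
    exact ⟨k, le_trans (Real.rpow_le_rpow_of_exponent_le hP1 (by linarith)) hk⟩

end Pool.Agent.J6H80.NP
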